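import Pool.Agent.helper17.MK.Spec

set_option autoImplicit false

namespace Pool.Agent.MK

open Finset Real Pool.Agent.helper39.MT Pool.Agent.helper85.FC

lemma AV_int {K : ℝ → ℝ} (hK : Continuous K) {c a b : ℝ} (hc : 1 < c) (ha : c ≤ a)
    (hb : c ≤ b) : IntervalIntegrable (fun t => K (t - 1) / (t - 1)) MeasureTheory.volume a b := by
  apply ContinuousOn.intervalIntegrable
  intro t ht
  have h1 : c ≤ t := (le_min ha hb).trans ht.1
  apply ContinuousAt.continuousWithinAt
  refine ContinuousAt.div ?_ ?_ ?_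
  · exact (hK.comp (continuous_id.sub continuous_const)).continuousAt
  · exact (continuous_id.sub continuous_const).continuousAt
  · linarith

lemma AV_diff {K R : ℝ → ℝ} (hK : Continuous K) {c a b e A : ℝ} (hc : 1 < c) (ha : c ≤ a)
    (hb : c ≤ b) (h1 : R a = e + ∫ t in c..a, K (t - 1) / (t - 1))
    (h2 : R b = e + ∫ t in c..b, K (t - 1) / (t - 1)) (ha0 : a ≠ 0) (hb0 : b ≠ 0) :
    b * (A * (R b / b)) - a * (A * (R a / a)) = ∫ s in a..b, A * (K (s - 1) / (s - 1)) := by
  rw [intervalIntegral.integral_const_mul]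
  have h3 : (∫ t in c..b, K (t - 1) / (t - 1)) - ∫ t in c..a, K (t - 1) / (t - 1) =
      ∫ t in a..b, K (t - 1) / (t - 1) :=
    intervalIntegral.integral_interval_sub_left (AV_int hK hc le_rfl hb) (AV_int hK hc le_rfl ha)
  rw [← h3]
  have h4 : b * (A * (R b / b)) = A * R b := by field_simp
  have h5 : a * (A * (R a / a)) = A * R a := by field_simp
  rw [h4, h5, h1, h2]
  ring

theorem AV_dat {u : ℝ} (hu : 4 ≤ u) {G H : ℝ → ℝ} (hD : RLS.DDE u G H) :
    RLS.Dat u (u / G u) (fun s => u / G u * (G s / s)) (fun s => u / G u * (H s / s)) := by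
  obtain ⟨hl, -, -⟩ := RLS.DE_all u G H hu hD
  have hq := RLS.DQ_all u G H hu hD
  obtain ⟨hGa, hHm⟩ := RLS.DM_all u G H hu hD
  have hGu : 1 ≤ G u := hD.g1 u
  have hGu0 : 0 < G u := by linarith
  have hu0 : 0 < u := by linarith
  set A : ℝ := u / G u with hA
  have hA0 : 0 < A := div_pos hu0 hGu0
  have hFu : A * (G u / u) = 1 := by
    rw [hA]
    field_simp
  have hF1 : ∀ s, 1 ≤ s → s ≤ u → 1 ≤ A * (G s / s) := by
    intro s hs hsu
    rw [← hFu]
    exact mul_le_mul_of_nonneg_left (hGa ⟨hs, hsu⟩ ⟨by linarith, le_rfl⟩ hsu) hA0.le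
  have hf1 : ∀ s, 2 ≤ s → s ≤ u → 0 ≤ A * (H s / s) ∧ A * (H s / s) ≤ 1 := by
    intro s hs hsu
    refine ⟨mul_nonneg hA0.le (div_nonneg (hD.h0 s) (by linarith)), ?_⟩
    have h5 : A * (H s / s) ≤ A * (H u / u) :=
      mul_le_mul_of_nonneg_left (hHm ⟨hs, hsu⟩ ⟨by linarith, le_rfl⟩ hsu) hA0.le
    have h6 : A * (H u / u) ≤ A * (G u / u) :=
      mul_le_mul_of_nonneg_left
        (div_le_div_of_nonneg_right (hq u (by linarith) le_rfl).le hu0.le) hA0.le
    linarith
  refine ⟨?_, ?_, ?_, ?_, ?_, ?_, hF1, hf1, ?_, ?_⟩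
  · have h5 := hF1 3 (by norm_num) (by linarith)
    rw [hD.g3 3 le_rfl] at h5
    linarith
  · have h5 := (hf1 4 (by norm_num) hu).2
    rw [hl 4 (by norm_num) le_rfl] at h5
    have h6 : (1 : ℝ) ≤ Real.log (4 - 1) := by
      rw [Real.le_log_iff_exp_le (by norm_num)]
      have := Real.exp_one_lt_d9
      norm_num at this ⊢
      linarith
    have h7 : A * 1 ≤ A * Real.log (4 - 1) := mul_le_mul_of_nonneg_left h6 hA0.le
    have h8 : A * (Real.log (4 - 1) / 4) = (A * Real.log (4 - 1)) / 4 := by ring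
    rw [h8, div_le_one (by norm_num : (0 : ℝ) < 4)] at h5
    rw [mul_one] at h7
    exact h7.trans h5
  · intro s hs hs3
    show A * (G s / s) = A / s
    rw [hD.g3 s hs3]
    ring
  · intro s hs hs4
    show A * (H s / s) = A * Real.log (s - 1) / s
    rw [hl s hs hs4]
    ring
  · intro x hx y hy hxy
    exact mul_le_mul_of_nonneg_left (hGa hx hy hxy) hA0.le
  · intro x hx y hy hxy
    exact mul_le_mul_of_nonneg_left (hHm hx hy hxy) hA0.le
  · intro a b ha hab hb
    exact AV_diff hD.cH (by norm_num) ha (ha.trans hab) (hD.gi a ha (hab.trans hb))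
      (hD.gi b (ha.trans hab) hb) (by linarith) (by linarith)
  · intro a b ha hab hb
    refine AV_diff (e := 0) hD.cG (by norm_num) ha (ha.trans hab) ?_ ?_ (by linarith) (by linarith)
    · rw [zero_add]
      exact hD.hi a ha (hab.trans hb)
    · rw [zero_add]
      exact hD.hi b (ha.trans hab) hb

theorem AV (h1 : RL_stmt) (h2 : RU_stmt) : AV_stmt := by
  intro u hu
  obtain ⟨G, H, hD⟩ := RLS.DX_all u hu
  refine ⟨u / G u, _, _, AV_dat hu hD, fun eps heps => ?_⟩
  have hGu : 1 ≤ G u := hD.g1 u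
  have hGu0 : 0 < G u := by linarith
  have hHG : H u < G u := RLS.DQ_all u G H hu hD u (by linarith) le_rfl
  set e : ℝ := min 1 (eps / 4) with he
  have he0 : 0 < e := lt_min one_pos (by linarith)
  have he1 : e ≤ 1 := min_le_left _ _
  have he2 : e ≤ eps / 4 := min_le_right _ _
  obtain ⟨w₁, hw₁, hR⟩ := h2 u G H hu hD e he0
  refine ⟨max w₁ (24 / eps), hw₁.trans (le_max_left _ _), fun w hw => ?_⟩
  have hw1 : w₁ ≤ w := (le_max_left _ _).trans hw
  have hw2 : 24 / eps ≤ w := (le_max_right _ _).trans hw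
  have hw3 : 2 ≤ w := hw₁.trans hw1
  have hw0 : 0 < w := by linarith
  have hlog : 0 < Real.log w := Real.log_pos (by linarith)
  have hu1 : 0 < u - 1 := by linarith
  have hL0 : 0 ≤ (u - 1) * Real.log w := (mul_pos hu1 hlog).le
  have a1 := h1 w ((u - 1) * Real.log w) hw3 hL0
  have a2 := hR w ((u - 1) * Real.log w) hw1 hL0 le_rfl
  have e1 : (u - 1) * Real.log w / Real.log w + 1 = u := by
    rw [mul_div_cancel_right₀ _ hlog.ne']
    ring
  rw [e1] at a2
  have hc : 0 ≤ 1 + 2 / w := by positivity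
  have a3 : Vw w * ((u - 1) * Real.log w) ≤ (1 + 2 / w) * (2 * G u + e) :=
    a1.trans (mul_le_mul_of_nonneg_left (by linarith) hc)
  have hA : 0 ≤ u / G u / (u - 1) := by positivity
  have a4 := mul_le_mul_of_nonneg_left a3 hA
  have e2 : u / G u / (u - 1) * (Vw w * ((u - 1) * Real.log w)) =
      u / G u * (Vw w * Real.log w) := by
    field_simp
  rw [e2] at a4
  refine a4.trans ?_
  have e3 : u / G u / (u - 1) * ((1 + 2 / w) * (2 * G u + e)) =
      u / (u - 1) * ((1 + 2 / w) * (2 + e / G u)) := by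
    field_simp
  rw [e3]
  have e4 : e / G u ≤ e := div_le_self he0.le hGu
  have e5 : 2 / w ≤ eps / 12 := by
    rw [div_le_iff₀ hw0]
    have := (div_le_iff₀ heps).1 hw2
    linarith
  have e6 : 0 ≤ 2 / w := by positivity
  have e7 : (1 + 2 / w) * (2 + e / G u) ≤ 2 + eps / 2 := by
    have f1 : (1 + 2 / w) * (2 + e / G u) ≤ (1 + 2 / w) * (2 + e) :=
      mul_le_mul_of_nonneg_left (by linarith) hc
    have f2 : 2 / w * (2 + e) ≤ eps / 12 * 3 :=
      mul_le_mul e5 (by linarith) (by linarith) (by linarith)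
    nlinarith
  have hq : u / (u - 1) ≤ 4 / 3 := by
    rw [div_le_div_iff₀ hu1 (by norm_num)]
    linarith
  have hq0 : 0 ≤ u / (u - 1) := by positivity
  calc u / (u - 1) * ((1 + 2 / w) * (2 + e / G u)) ≤ u / (u - 1) * (2 + eps / 2) :=
        mul_le_mul_of_nonneg_left e7 hq0
    _ = 2 * u / (u - 1) + u / (u - 1) * (eps / 2) := by ring
    _ ≤ 2 * u / (u - 1) + 4 / 3 * (eps / 2) := by
        have := mul_le_mul_of_nonneg_right hq (by linarith : 0 ≤ eps / 2)
        linarith
    _ ≤ 2 * u / (u - 1) + eps := by linarith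

end Pool.Agent.MK
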